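import Pool.Agent.L7h85.SG.Geo
import Pool.Agent.L7h32.SG.La

/-!
# Project SG, part TW: isomorphisms of polarized varieties
-/

set_option linter.unusedVariables false
set_option linter.unusedSectionVars false

open CategoryTheory AlgebraicGeometry CategoryTheory.Limits

universe u v

namespace Pool.Agent.L7h89.SG

open Pool.Agent.H914 Pool.Agent.H914.VarClass Pool.Agent.H914.VarClass.Obj
  Pool.Agent.H914.WeilCohomology Pool.Agent.H281R3.HT Pool.Agent.W552 Pool.Agent.W539.Ker Module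
  Pool.Agent.L7h85.SG
open Pool.Agent.L7h85.RL (pmap pmap_fst pmap_snd map_pmap asso asso' asso_fst asso_snd_fst
  asso_snd_snd asso'_snd asso'_fst_fst asso'_fst_snd)
open Pool.Agent.Y163 (prod_hom_ext triple_induction)
open Pool.Agent.L7h85

variable {k : Type u} [Field k] {𝒱 : VarClass k} {ops : CycleOps 𝒱}
  {W : WeilCohomology.{u, v} ops} {X Y Z U : 𝒱.Obj}

/-- The polarized varieties `P` and `Q`, with the operators `e` and `g`, are isomorphic, by an
isomorphism which is compatible with the traces. -/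
def TwT (P : PV W) (e : Module.End W.K (W.H P.X)) (Q : PV W) (g : Module.End W.K (W.H Q.X)) :
    Prop :=
  P.X.dim = Q.X.dim ∧ ∃ (θ : P.X ⟶ Q.X) (η : Q.X ⟶ P.X), θ ≫ η = 𝟙 P.X ∧ η ≫ θ = 𝟙 Q.X ∧
    W.map θ (W.cl Q.X Q.D) = W.cl P.X P.D ∧ (∀ a, W.map θ (Q.f a) = P.f (W.map θ a)) ∧
    (∀ a, W.map θ (g a) = e (W.map θ a)) ∧ ∀ a, W.tr P.X (W.map θ a) = W.tr Q.X a

/-! ### Conjugation -/

section Conj

variable (θ : X ⟶ Y) (η : Y ⟶ X) (h1 : θ ≫ η = 𝟙 X) (h2 : η ≫ θ = 𝟙 Y)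

include h1 in
lemma th_et (a : W.H X) : W.map θ (W.map η a) = a := by
  rw [← W.map_comp, h1, W.map_id]

include h2 in
lemma et_th (a : W.H Y) : W.map η (W.map θ a) = a := by
  rw [← W.map_comp, h2, W.map_id]

/-- Conjugation with an isomorphism. -/
noncomputable def cj : Module.End W.K (W.H X) →+* Module.End W.K (W.H Y) where
  toFun u := (W.map η).toLinearMap ∘ₗ u ∘ₗ (W.map θ).toLinearMap
  map_one' := by
    apply LinearMap.ext
    intro a
    exact et_th θ η h2 a
  map_mul' u v := by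
    apply LinearMap.ext
    intro a
    change W.map η (u (v (W.map θ a))) = W.map η (u (W.map θ (W.map η (v (W.map θ a)))))
    rw [th_et θ η h1]
  map_zero' := by
    apply LinearMap.ext
    intro a
    change W.map η 0 = 0
    rw [map_zero]
  map_add' u v := by
    apply LinearMap.ext
    intro a
    change W.map η (u (W.map θ a) + v (W.map θ a)) = _
    rw [map_add]
    rfl

lemma cj_apply (u : Module.End W.K (W.H X)) (a : W.H Y) :
    cj θ η h1 h2 u a = W.map η (u (W.map θ a)) := rfl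

lemma wey_cj {e f : Module.End W.K (W.H X)} (he : IsNilpotent e) (hf : IsNilpotent f) :
    cj θ η h1 h2 (wey e f) = wey (cj θ η h1 h2 e) (cj θ η h1 h2 f) := by
  let _ : Module ℚ (Module.End W.K (W.H X)) :=
    Module.compHom (Module.End W.K (W.H X)) (algebraMap ℚ W.K)
  let _ : Module ℚ (Module.End W.K (W.H Y)) :=
    Module.compHom (Module.End W.K (W.H Y)) (algebraMap ℚ W.K)
  exact weyl_map (cj θ η h1 h2) he hf

end Conj

/-- The isomorphisms commute with the star operators. -/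
lemma st_iso {P Q : PV W} (θ : P.X ⟶ Q.X) (η : Q.X ⟶ P.X) (h1 : θ ≫ η = 𝟙 P.X)
    (h2 : η ≫ θ = 𝟙 Q.X) (h3 : W.map θ (W.cl Q.X Q.D) = W.cl P.X P.D)
    (h4 : ∀ a, W.map θ (Q.f a) = P.f (W.map θ a)) (a : W.H Q.X) :
    W.map θ (st W Q.X Q.D Q.f a) = st W P.X P.D P.f (W.map θ a) := by
  have e1 : cj η θ h2 h1 (LinearMap.mulLeft W.K (W.cl Q.X Q.D)) =
      LinearMap.mulLeft W.K (W.cl P.X P.D) := by
    apply LinearMap.ext
    intro x
    rw [cj_apply, LinearMap.mulLeft_apply, LinearMap.mulLeft_apply, map_mul, th_et θ η h1, h3]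
  have e2 : cj η θ h2 h1 Q.f = P.f := by
    apply LinearMap.ext
    intro x
    rw [cj_apply, h4, th_et θ η h1]
  have e3 := wey_cj η θ h2 h1 Q.gd.fr.sl2.nil_e Q.gd.fr.sl2.nil_f
  rw [e1, e2] at e3
  have e4 : ∀ a, W.map θ (wop W Q.X Q.D Q.f a) = wop W P.X P.D P.f (W.map θ a) := by
    intro a
    rw [wop, wop, ← e3, cj_apply, et_th θ η h2]
  refine gr_induction (W.isInternal Q.X) (p := fun a =>
    W.map θ (st W Q.X Q.D Q.f a) = st W P.X P.D P.f (W.map θ a)) ?_ ?_ a
  · intro i a ha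
    rw [st_apply ha, st_apply (W.map_mem θ ha), map_smul, e4]
  · intro a b ha hb
    rw [map_add, map_add, ha, hb, map_add, map_add]

lemma wt_iso {P Q : PV W} (hd : P.X.dim = Q.X.dim) (θ : P.X ⟶ Q.X) (a : W.H Q.X) :
    W.map θ (Q.h a) = P.h (W.map θ a) := by
  refine gr_induction (W.isInternal Q.X) (p := fun a => W.map θ (Q.h a) = P.h (W.map θ a))
    ?_ ?_ a
  · intro i a ha
    rw [Fr.wt_gr ha, Fr.wt_gr (W.map_mem θ ha), map_smul, hd]
  · intro a b ha hb
    rw [map_add, map_add, ha, hb, map_add, map_add]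

/-- The signature is invariant under isomorphisms. -/
lemma TwT.sg {P Q : PV W} {e : Module.End W.K (W.H P.X)} {g : Module.End W.K (W.H Q.X)}
    (h : TwT P e Q g) {σ : ℤ} (hσ : Sg P e σ) : Sg Q g σ := by
  obtain ⟨hd, θ, η, h1, h2, h3, h4, h5, h6⟩ := h
  have h3' : W.map η (W.cl P.X P.D) = W.cl Q.X Q.D := by rw [← h3, et_th θ η h2]
  have h4' : ∀ a, W.map η (P.f a) = Q.f (W.map η a) := by
    intro a
    have := h4 (W.map η a)
    rw [th_et θ η h1] at this
    rw [← this, et_th θ η h2]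
  have h5' : ∀ a, W.map η (e a) = g (W.map η a) := by
    intro a
    have := h5 (W.map η a)
    rw [th_et θ η h1] at this
    rw [← this, et_th θ η h2]
  have h6' : ∀ a, W.tr Q.X (W.map η a) = W.tr P.X a := by
    intro a
    rw [← h6, th_et θ η h1]
  have hb : ∀ x y, Q.b (W.map η x) (W.map η y) = P.b x y := by
    intro x y
    rw [bf_apply, bf_apply, ← st_iso η θ h2 h1 h3' h4', ← map_mul, h6']
  have hM : ∀ x, Mid P e x → Mid Q g (W.map η x) := by
    rintro x ⟨m1, m2, m3⟩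
    refine ⟨m1.map η, ?_, ?_⟩
    · rw [← wt_iso hd.symm η, m2, map_zero]
    · rw [← h5', m3]
  have hM' : ∀ x, Mid Q g x → Mid P e (W.map θ x) := by
    rintro x ⟨m1, m2, m3⟩
    refine ⟨m1.map θ, ?_, ?_⟩
    · rw [← wt_iso hd θ, m2, map_zero]
    · rw [← h5, m3]
  have key := Pool.Agent.L7h32.SG.s_TRA.{v, v} W.K (W.H P.X) (W.H Q.X) (Mid P e) (Mid Q g) P.b Q.b
    (W.map η) 1 one_ne_zero (fun x y _ _ => by rw [hb, Rat.cast_one, one_mul]) hM
    (fun x' hx' => ⟨W.map θ x', hM' x' hx', et_th θ η h2 x'⟩) σ hσ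
  have e1 : ((SignType.sign (1 : ℚ) : SignType) : ℤ) * σ = σ := by simp
  rw [e1] at key
  exact key

lemma TwT.refl (P : PV W) (e : Module.End W.K (W.H P.X)) : TwT P e P e :=
  ⟨rfl, 𝟙 _, 𝟙 _, Category.comp_id _, Category.comp_id _, W.map_id _ _,
    fun a => by rw [W.map_id, W.map_id], fun a => by rw [W.map_id, W.map_id],
    fun a => by rw [W.map_id]⟩

lemma TwT.symm {P Q : PV W} {e : Module.End W.K (W.H P.X)} {g : Module.End W.K (W.H Q.X)}
    (h : TwT P e Q g) : TwT Q g P e := by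
  obtain ⟨hd, θ, η, h1, h2, h3, h4, h5, h6⟩ := h
  refine ⟨hd.symm, η, θ, h2, h1, by rw [← h3, et_th θ η h2], fun a => ?_, fun a => ?_,
    fun a => by rw [← h6, th_et θ η h1]⟩
  · have := h4 (W.map η a)
    rw [th_et θ η h1] at this
    rw [← this, et_th θ η h2]
  · have := h5 (W.map η a)
    rw [th_et θ η h1] at this
    rw [← this, et_th θ η h2]

lemma TwT.trans {P Q R : PV W} {e : Module.End W.K (W.H P.X)} {g : Module.End W.K (W.H Q.X)}
    {l : Module.End W.K (W.H R.X)} (h : TwT P e Q g) (h' : TwT Q g R l) : TwT P e R l := by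
  obtain ⟨hd, θ, η, h1, h2, h3, h4, h5, h6⟩ := h
  obtain ⟨hd', θ', η', h1', h2', h3', h4', h5', h6'⟩ := h'
  refine ⟨hd.trans hd', θ ≫ θ', η' ≫ η, ?_, ?_, ?_, fun a => ?_, fun a => ?_, fun a => ?_⟩
  · rw [Category.assoc, ← Category.assoc θ', h1', Category.id_comp, h1]
  · rw [Category.assoc, ← Category.assoc η, h2, Category.id_comp, h2']
  · rw [W.map_comp, h3', h3]
  · rw [W.map_comp, h4', h4, ← W.map_comp]
  · rw [W.map_comp, h5', h5, ← W.map_comp]
  · rw [W.map_comp, h6, h6']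

/-- **TWS** -/
theorem s_TWS (W : WeilCohomology.{u, v} ops) :
    (∀ (P Q : PV W) (e : Module.End W.K (W.H P.X)) (g : Module.End W.K (W.H Q.X)),
      TwT P e Q g → ∀ σ : ℤ, Sg P e σ → Sg Q g σ) ∧
    (∀ (P : PV W) (e : Module.End W.K (W.H P.X)), TwT P e P e) ∧
    (∀ (P Q : PV W) (e : Module.End W.K (W.H P.X)) (g : Module.End W.K (W.H Q.X)),
      TwT P e Q g → TwT Q g P e) ∧
    ∀ (P Q R : PV W) (e : Module.End W.K (W.H P.X)) (g : Module.End W.K (W.H Q.X))
      (l : Module.End W.K (W.H R.X)), TwT P e Q g → TwT Q g R l → TwT P e R l :=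
  ⟨fun _ _ _ _ h _ hσ => h.sg hσ, fun P e => TwT.refl P e, fun _ _ _ _ h => h.symm,
    fun _ _ _ _ _ _ h h' => h.trans h'⟩

/-! ### Products -/

section Prod

variable (hGD : S_GDP W)

omit hGD in
lemma pmap_inv {P Q P' Q' : 𝒱.Obj} {θ : P ⟶ P'} {η : P' ⟶ P} {θ' : Q ⟶ Q'} {η' : Q' ⟶ Q}
    (a1 : θ ≫ η = 𝟙 P) (b1 : θ' ≫ η' = 𝟙 Q) : pmap θ θ' ≫ pmap η η' = 𝟙 (P.prod Q) := by
  apply prod_hom_ext
  · rw [Category.assoc, pmap_fst, ← Category.assoc, pmap_fst, Category.assoc, a1,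
      Category.comp_id, Category.id_comp]
  · rw [Category.assoc, pmap_snd, ← Category.assoc, pmap_snd, Category.assoc, b1,
      Category.comp_id, Category.id_comp]

lemma swap_inv (P Q : 𝒱.Obj) : H914.swap P Q ≫ H914.swap Q P = 𝟙 (P.prod Q) := by
  apply prod_hom_ext
  · rw [Category.assoc, swap_fst, swap_snd, Category.id_comp]
  · rw [Category.assoc, swap_snd, swap_fst, Category.id_comp]

lemma asso_inv (X Y Z : 𝒱.Obj) : RL.asso X Y Z ≫ RL.asso' X Y Z = 𝟙 _ := by
  apply prod_hom_ext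
  · rw [Category.id_comp]
    apply prod_hom_ext
    · rw [Category.assoc, Category.assoc, asso'_fst_fst, asso_fst]
    · rw [Category.assoc, Category.assoc, asso'_fst_snd, asso_snd_fst]
  · rw [Category.assoc, asso'_snd, asso_snd_snd, Category.id_comp]

lemma asso_inv' (X Y Z : 𝒱.Obj) : RL.asso' X Y Z ≫ RL.asso X Y Z = 𝟙 _ := by
  apply prod_hom_ext
  · rw [Category.assoc, asso_fst, asso'_fst_fst, Category.id_comp]
  · rw [Category.id_comp]
    apply prod_hom_ext
    · rw [Category.assoc, Category.assoc, asso_snd_fst, asso'_fst_snd]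
    · rw [Category.assoc, Category.assoc, asso_snd_snd, asso'_snd]

/-- The two products are isomorphic if their data are. -/
lemma extSum_pmap {P Q P' Q' : 𝒱.Obj} (θ : P ⟶ P') (θ' : Q ⟶ Q') (f : Module.End W.K (W.H P))
    (f' : Module.End W.K (W.H P')) (g : Module.End W.K (W.H Q)) (g' : Module.End W.K (W.H Q'))
    (hf : ∀ a, W.map θ (f' a) = f (W.map θ a)) (hg : ∀ a, W.map θ' (g' a) = g (W.map θ' a))
    (x : W.H (P'.prod Q')) :
    W.map (pmap θ θ') (extSum W f' g' x) = extSum W f g (W.map (pmap θ θ') x) := by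
  refine W.kunneth_induction (p := fun x => W.map (pmap θ θ') (extSum W f' g' x) =
    extSum W f g (W.map (pmap θ θ') x)) ?_ ?_ x
  · intro a b ha hb
    rw [map_add, map_add, map_add, map_add, ha, hb]
  · intro i j a ha b hb
    rw [extSum_tmul, map_add, map_pmap, map_pmap, map_pmap, extSum_tmul, hf, hg]

lemma extOp_pmap {P Q P' Q' : 𝒱.Obj} (θ : P ⟶ P') (θ' : Q ⟶ Q') (f : Module.End W.K (W.H P))
    (f' : Module.End W.K (W.H P')) (g : Module.End W.K (W.H Q)) (g' : Module.End W.K (W.H Q'))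
    (hf : ∀ a, W.map θ (f' a) = f (W.map θ a)) (hg : ∀ a, W.map θ' (g' a) = g (W.map θ' a))
    (x : W.H (P'.prod Q')) :
    W.map (pmap θ θ') (extOp W f' g' x) = extOp W f g (W.map (pmap θ θ') x) := by
  refine W.kunneth_induction (p := fun x => W.map (pmap θ θ') (extOp W f' g' x) =
    extOp W f g (W.map (pmap θ θ') x)) ?_ ?_ x
  · intro a b ha hb
    rw [map_add, map_add, map_add, map_add, ha, hb]
  · intro i j a ha b hb
    rw [extOp_tmul, map_pmap, map_pmap, extOp_tmul, hf, hg]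

lemma TwT.ext {P Q P' Q' : PV W} {e : Module.End W.K (W.H P.X)} {g : Module.End W.K (W.H Q.X)}
    {e' : Module.End W.K (W.H P'.X)} {g' : Module.End W.K (W.H Q'.X)} (h : TwT P e P' e')
    (h' : TwT Q g Q' g') :
    TwT (PV.prod hGD P Q) (extOp W e g) (PV.prod hGD P' Q') (extOp W e' g') := by
  obtain ⟨hd, θ, η, a1, a2, a3, a4, a5, a6⟩ := h
  obtain ⟨hd', θ', η', b1, b2, b3, b4, b5, b6⟩ := h'
  refine ⟨?_, pmap θ θ', pmap η η', pmap_inv a1 b1, pmap_inv a2 b2, ?_, ?_, ?_, ?_⟩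
  · change (P.X.prod Q.X).dim = (P'.X.prod Q'.X).dim
    rw [dim_prod, dim_prod, hd, hd']
  · change W.map (pmap θ θ') (W.cl (P'.X.prod Q'.X) (ops.pull (fst P'.X Q'.X) P'.D +
      ops.pull (snd P'.X Q'.X) Q'.D)) = W.cl (P.X.prod Q.X) (ops.pull (fst P.X Q.X) P.D +
      ops.pull (snd P.X Q.X) Q.D)
    rw [map_add (W.cl (P'.X.prod Q'.X)), map_add (W.cl (P.X.prod Q.X)), map_add, W.cl_pull,
      W.cl_pull, W.cl_pull, W.cl_pull, ← W.map_comp, ← W.map_comp, pmap_fst, pmap_snd,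
      W.map_comp, W.map_comp, a3, b3]
  · exact extSum_pmap θ θ' P.f P'.f Q.f Q'.f a4 b4
  · exact extOp_pmap θ θ' e e' g g' a5 b5
  · intro x
    refine W.kunneth_induction (p := fun x => W.tr (P.X.prod Q.X) (W.map (pmap θ θ') x) =
      W.tr (P'.X.prod Q'.X) x) ?_ ?_ x
    · intro a b ha hb
      rw [map_add, map_add, ha, hb, map_add]
    · intro i j a ha b hb
      rw [map_pmap, W.tr_prod, W.tr_prod, a6, b6]

/-- The operator preserves the parity of the degree. -/
def Pk (f : Module.End W.K (W.H X)) : Prop :=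
  ∀ i : ℕ, ∀ a ∈ W.gr X i, ∃ i' : ℕ, (∀ j : ℕ, (-1 : W.K) ^ (i' * j) = (-1) ^ (i * j)) ∧
    f a ∈ W.gr X i'

lemma Pk.one : Pk (1 : Module.End W.K (W.H X)) := fun i a ha => ⟨i, fun _ => rfl, ha⟩

lemma Pk.of_wt {e : Module.End W.K (W.H X)}
    (h : e * wt (W.isInternal X) X.dim = wt (W.isInternal X) X.dim * e) : Pk e := by
  intro i a ha
  refine ⟨i, fun _ => rfl, ?_⟩
  have h1 := congrArg (fun F => F a) h
  simp only [Module.End.mul_apply, Fr.wt_gr ha, map_smul] at h1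
  exact (mem_gr_of_wt (W.isInternal X) W_hbd h1.symm).1 i rfl

lemma Pk.of_fr {D : X.Cycles} {f : Module.End W.K (W.H X)} (F : Fr W X D f) : Pk f := by
  intro i a ha
  obtain ⟨h1, h2⟩ := F.f_gr ha
  by_cases hi : i < 2
  · refine ⟨i, fun _ => rfl, ?_⟩
    rw [h2 hi]
    exact Submodule.zero_mem _
  · refine ⟨i - 2, fun j => ?_, h1 _ (by omega)⟩
    obtain ⟨i, rfl⟩ : ∃ i', i = i' + 2 := ⟨i - 2, by omega⟩
    rw [Nat.add_sub_cancel, add_mul, pow_add, pow_mul (-1 : W.K) 2]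
    simp

lemma map_swap {i j : ℕ} {a : W.H Y} {b : W.H X} (ha : a ∈ W.gr Y i) (hb : b ∈ W.gr X j) :
    W.map (H914.swap X Y) (W.map (fst Y X) a * W.map (snd Y X) b) =
      (-1 : W.K) ^ (i * j) • (W.map (fst X Y) b * W.map (snd X Y) a) := by
  rw [map_mul, ← W.map_comp, ← W.map_comp, swap_fst, swap_snd,
    W.comm (W.map_mem (snd X Y) ha) (W.map_mem (fst X Y) hb)]

lemma extOp_swap {f : Module.End W.K (W.H X)} {g : Module.End W.K (W.H Y)} (hf : Pk f)
    (hg : Pk g) (x : W.H (Y.prod X)) :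
    W.map (H914.swap X Y) (extOp W g f x) = extOp W f g (W.map (H914.swap X Y) x) := by
  refine W.kunneth_induction (p := fun x => W.map (H914.swap X Y) (extOp W g f x) =
    extOp W f g (W.map (H914.swap X Y) x)) ?_ ?_ x
  · intro a b ha hb
    rw [map_add, map_add, map_add, map_add, ha, hb]
  · intro i j a ha b hb
    obtain ⟨i', hi', hga⟩ := hg i a ha
    obtain ⟨j', hj', hfb⟩ := hf j b hb
    rw [extOp_tmul, map_swap hga hfb, map_swap ha hb, map_smul, extOp_tmul, hi', mul_comm i j',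
      hj', mul_comm j i]

lemma extSum_swap {f : Module.End W.K (W.H X)} {g : Module.End W.K (W.H Y)} (hf : Pk f)
    (hg : Pk g) (x : W.H (Y.prod X)) :
    W.map (H914.swap X Y) (extSum W g f x) = extSum W f g (W.map (H914.swap X Y) x) := by
  have h1 := extOp_swap (X := X) (Y := Y) hf Pk.one x
  have h2 := extOp_swap (X := X) (Y := Y) Pk.one hg x
  rw [extSum, extSum, LinearMap.add_apply, LinearMap.add_apply, extL_apply, extR_apply,
    extL_apply, extR_apply, map_add, h1, h2, add_comm]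

lemma TwT.swap {P Q : PV W} {e : Module.End W.K (W.H P.X)} {g : Module.End W.K (W.H Q.X)}
    (he : e * P.h = P.h * e) (hg : g * Q.h = Q.h * g) :
    TwT (PV.prod hGD P Q) (extOp W e g) (PV.prod hGD Q P) (extOp W g e) := by
  refine ⟨?_, H914.swap P.X Q.X, H914.swap Q.X P.X, swap_inv _ _, swap_inv _ _, ?_, ?_, ?_, ?_⟩
  · change (P.X.prod Q.X).dim = (Q.X.prod P.X).dim
    rw [dim_prod, dim_prod, add_comm]
  · change W.map (H914.swap P.X Q.X) (W.cl (Q.X.prod P.X) (ops.pull (fst Q.X P.X) Q.D +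
      ops.pull (snd Q.X P.X) P.D)) = W.cl (P.X.prod Q.X) (ops.pull (fst P.X Q.X) P.D +
      ops.pull (snd P.X Q.X) Q.D)
    rw [map_add (W.cl (Q.X.prod P.X)), map_add (W.cl (P.X.prod Q.X)), map_add, W.cl_pull,
      W.cl_pull, W.cl_pull, W.cl_pull, ← W.map_comp, ← W.map_comp, swap_fst, swap_snd, add_comm]
  · exact extSum_swap (Pk.of_fr P.gd.fr) (Pk.of_fr Q.gd.fr)
  · exact extOp_swap (Pk.of_wt he) (Pk.of_wt hg)
  · intro x
    refine W.kunneth_induction (p := fun x => W.tr (P.X.prod Q.X) (W.map (H914.swap P.X Q.X) x) =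
      W.tr (Q.X.prod P.X) x) ?_ ?_ x
    · intro a b ha hb
      rw [map_add, map_add, ha, hb, map_add]
    · intro i j a ha b hb
      rw [map_swap ha hb, map_smul, W.tr_prod, W.tr_prod, smul_eq_mul]
      by_cases hi : i = 2 * Q.X.dim
      · rw [hi, mul_assoc, pow_mul (-1 : W.K) 2]
        simp [mul_comm]
      · rw [W.tr_eq_zero ha hi]
        simp

lemma map_asso (a : W.H X) (b : W.H Y) (c : W.H Z) :
    W.map (asso X Y Z) (W.map (fst X (Y.prod Z)) a * W.map (snd X (Y.prod Z))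
      (W.map (fst Y Z) b * W.map (snd Y Z) c)) =
    W.map (fst (X.prod Y) Z) (W.map (fst X Y) a * W.map (snd X Y) b) *
      W.map (snd (X.prod Y) Z) c := by
  have e1 : ∀ x : W.H X, W.map (asso X Y Z) (W.map (fst X (Y.prod Z)) x) =
      W.map (fst (X.prod Y) Z) (W.map (fst X Y) x) := by
    intro x
    rw [← W.map_comp, asso_fst, W.map_comp]
  have e2 : ∀ x : W.H Y, W.map (asso X Y Z) (W.map (snd X (Y.prod Z))
      (W.map (fst Y Z) x)) = W.map (fst (X.prod Y) Z) (W.map (snd X Y) x) := by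
    intro x
    rw [← W.map_comp, ← W.map_comp, Category.assoc, asso_snd_fst, W.map_comp]
  have e3 : ∀ x : W.H Z, W.map (asso X Y Z) (W.map (snd X (Y.prod Z))
      (W.map (snd Y Z) x)) = W.map (snd (X.prod Y) Z) x := by
    intro x
    rw [← W.map_comp, ← W.map_comp, Category.assoc, asso_snd_snd]
  rw [map_mul (W.map (asso X Y Z)), map_mul (W.map (snd X (Y.prod Z))),
    map_mul (W.map (asso X Y Z)), e1, e2, e3, map_mul (W.map (fst (X.prod Y) Z)),
    mul_assoc]

lemma TwT.asso (P Q R : PV W) (e : Module.End W.K (W.H P.X)) (g : Module.End W.K (W.H Q.X))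
    (l : Module.End W.K (W.H R.X)) :
    TwT (PV.prod hGD (PV.prod hGD P Q) R) (extOp W (extOp W e g) l)
      (PV.prod hGD P (PV.prod hGD Q R)) (extOp W e (extOp W g l)) := by
  refine ⟨?_, RL.asso P.X Q.X R.X, RL.asso' P.X Q.X R.X, asso_inv _ _ _, asso_inv' _ _ _,
    ?_, ?_, ?_, ?_⟩
  · change ((P.X.prod Q.X).prod R.X).dim = (P.X.prod (Q.X.prod R.X)).dim
    simp only [dim_prod]
    ring
  · change W.map (RL.asso P.X Q.X R.X) (W.cl (P.X.prod (Q.X.prod R.X))
      (ops.pull (fst P.X (Q.X.prod R.X)) P.D + ops.pull (snd P.X (Q.X.prod R.X))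
        (ops.pull (fst Q.X R.X) Q.D + ops.pull (snd Q.X R.X) R.D))) =
      W.cl ((P.X.prod Q.X).prod R.X) (ops.pull (fst (P.X.prod Q.X) R.X)
        (ops.pull (fst P.X Q.X) P.D + ops.pull (snd P.X Q.X) Q.D) +
        ops.pull (snd (P.X.prod Q.X) R.X) R.D)
    rw [map_add (W.cl (P.X.prod (Q.X.prod R.X))), map_add (W.cl ((P.X.prod Q.X).prod R.X)),
      W.cl_pull, W.cl_pull, W.cl_pull, W.cl_pull, map_add (W.cl (Q.X.prod R.X)),
      map_add (W.cl (P.X.prod Q.X)), W.cl_pull, W.cl_pull, W.cl_pull, W.cl_pull,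
      map_add (W.map (RL.asso P.X Q.X R.X)), map_add (W.map (snd P.X (Q.X.prod R.X))),
      map_add (W.map (RL.asso P.X Q.X R.X)), map_add (W.map (fst (P.X.prod Q.X) R.X))]
    have e1 : ∀ x : W.H P.X, W.map (RL.asso P.X Q.X R.X) (W.map (fst P.X (Q.X.prod R.X)) x) =
        W.map (fst (P.X.prod Q.X) R.X) (W.map (fst P.X Q.X) x) := by
      intro x
      rw [← W.map_comp, asso_fst, W.map_comp]
    have e2 : ∀ x : W.H Q.X, W.map (RL.asso P.X Q.X R.X) (W.map (snd P.X (Q.X.prod R.X))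
        (W.map (fst Q.X R.X) x)) = W.map (fst (P.X.prod Q.X) R.X) (W.map (snd P.X Q.X) x) := by
      intro x
      rw [← W.map_comp, ← W.map_comp, Category.assoc, asso_snd_fst, W.map_comp]
    have e3 : ∀ x : W.H R.X, W.map (RL.asso P.X Q.X R.X) (W.map (snd P.X (Q.X.prod R.X))
        (W.map (snd Q.X R.X) x)) = W.map (snd (P.X.prod Q.X) R.X) x := by
      intro x
      rw [← W.map_comp, ← W.map_comp, Category.assoc, asso_snd_snd]
    rw [e1, e2, e3, add_assoc]
  · intro x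
    change W.map (RL.asso P.X Q.X R.X) ((extSum W P.f (extSum W Q.f R.f)) x) =
      (extSum W (extSum W P.f Q.f) R.f) (W.map (RL.asso P.X Q.X R.X) x)
    refine triple_induction (p := fun x => W.map (RL.asso P.X Q.X R.X)
      ((extSum W P.f (extSum W Q.f R.f)) x) =
      (extSum W (extSum W P.f Q.f) R.f) (W.map (RL.asso P.X Q.X R.X) x)) ?_ ?_ x
    · intro a b ha hb
      rw [map_add, map_add, map_add, map_add, ha, hb]
    · intro i j l a ha b hb c hc
      rw [extSum_tmul, extSum_tmul, map_add (W.map (snd P.X (Q.X.prod R.X))), mul_add,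
        map_add (W.map (RL.asso P.X Q.X R.X)), map_add (W.map (RL.asso P.X Q.X R.X)), map_asso,
        map_asso, map_asso, map_asso, extSum_tmul, extSum_tmul,
        map_add (W.map (fst (P.X.prod Q.X) R.X)), add_mul, add_assoc]
  · intro x
    change W.map (RL.asso P.X Q.X R.X) ((extOp W e (extOp W g l)) x) =
      (extOp W (extOp W e g) l) (W.map (RL.asso P.X Q.X R.X) x)
    refine triple_induction (p := fun x => W.map (RL.asso P.X Q.X R.X)
      ((extOp W e (extOp W g l)) x) =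
      (extOp W (extOp W e g) l) (W.map (RL.asso P.X Q.X R.X) x)) ?_ ?_ x
    · intro a b ha hb
      rw [map_add, map_add, map_add, map_add, ha, hb]
    · intro i j l' a ha b hb c hc
      rw [extOp_tmul, extOp_tmul, map_asso, map_asso, extOp_tmul, extOp_tmul]
  · intro x
    change W.tr ((P.X.prod Q.X).prod R.X) (W.map (RL.asso P.X Q.X R.X) x) =
      W.tr (P.X.prod (Q.X.prod R.X)) x
    refine triple_induction (p := fun x => W.tr ((P.X.prod Q.X).prod R.X)
      (W.map (RL.asso P.X Q.X R.X) x) = W.tr (P.X.prod (Q.X.prod R.X)) x) ?_ ?_ x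
    · intro a b ha hb
      rw [map_add, map_add, ha, hb, map_add]
    · intro i j l a ha b hb c hc
      rw [map_asso, W.tr_prod, W.tr_prod, W.tr_prod, W.tr_prod, mul_assoc]

/-- **TWX** -/
theorem s_TWX :
    (∀ (P Q P' Q' : PV W) (e : Module.End W.K (W.H P.X)) (g : Module.End W.K (W.H Q.X))
      (e' : Module.End W.K (W.H P'.X)) (g' : Module.End W.K (W.H Q'.X)), TwT P e P' e' →
      TwT Q g Q' g' →
        TwT (PV.prod hGD P Q) (extOp W e g) (PV.prod hGD P' Q') (extOp W e' g')) ∧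
    (∀ (P Q : PV W) (e : Module.End W.K (W.H P.X)) (g : Module.End W.K (W.H Q.X)),
      e * P.h = P.h * e → g * Q.h = Q.h * g →
        TwT (PV.prod hGD P Q) (extOp W e g) (PV.prod hGD Q P) (extOp W g e)) ∧
    ∀ (P Q R : PV W) (e : Module.End W.K (W.H P.X)) (g : Module.End W.K (W.H Q.X))
      (l : Module.End W.K (W.H R.X)),
        TwT (PV.prod hGD (PV.prod hGD P Q) R) (extOp W (extOp W e g) l)
          (PV.prod hGD P (PV.prod hGD Q R)) (extOp W e (extOp W g l)) :=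
  ⟨fun _ _ _ _ _ _ _ _ h h' => h.ext hGD h', fun _ _ _ _ he hg => TwT.swap hGD he hg,
    fun P Q R e g l => TwT.asso hGD P Q R e g l⟩

end Prod

end Pool.Agent.L7h89.SG
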